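import Mathlib
import Pool.Agent.H.MP_ff3c98_co.Inf

set_option autoImplicit false

namespace Pool.Agent.Results.MP_ff3c98_co.Bounded

/-- a colouring with at most two colours preserved only by the identity automorphism -/
def Distinguishing {V : Type} (G : SimpleGraph V) (c : V → Fin 2) : Prop :=
  ∀ φ : G ≃g G, (∀ v, c (φ v) = c v) → ∀ v, φ v = v

/-- only the identity automorphism fixes every vertex of `S` -/
def Determining {V : Type} (G : SimpleGraph V) (S : Set V) : Prop :=
  ∀ φ : G ≃g G, (∀ v ∈ S, φ v = v) → ∀ v, φ v = v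

theorem result (d : ℕ) : ∃ C : ℕ, ∀ (V : Type) [Finite V] (G : SimpleGraph V),
    (∃ c : V → Fin 2, Distinguishing G c) →
    IsLeast {k : ℕ | ∃ S : Set V, Determining G S ∧ S.ncard = k} d →
    ∃ r : ℕ, IsLeast {k : ℕ | ∃ (c : V → Fin 2) (i : Fin 2),
      Distinguishing G c ∧ {v | c v = i}.ncard = k} r ∧ r ≤ C := by
  classical
  obtain ⟨C, hC⟩ := Pool.Agent.H.MP_ff3c98_co.fin_main d
  refine ⟨C, ?_⟩
  intro V _ G ⟨c, hc⟩ ⟨⟨S, hS, hSd⟩, _⟩
  let Γ : Subgroup (Equiv.Perm V) :=
    { carrier := {g | ∀ u v, G.Adj (g u) (g v) ↔ G.Adj u v}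
      mul_mem' := by
        intro g k hg hk u v
        rw [Equiv.Perm.mul_apply, Equiv.Perm.mul_apply, hg, hk]
      one_mem' := fun u v => Iff.rfl
      inv_mem' := by
        intro g hg u v
        rw [← hg]; simp }
  have hSf : S.Finite := Set.toFinite S
  have hcard : hSf.toFinset.card = d := by rw [← hSd, Set.ncard_eq_toFinset_card S hSf]
  let e : hSf.toFinset ≃ Fin d := Finset.equivFinOfCardEq hcard
  obtain ⟨T, hT, hTs⟩ := hC V Γ (fun j => (e.symm j : V)) {v | c v = 0} (by
      intro g hg hfix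
      ext v
      refine hS ⟨g, fun {u v} => hg u v⟩ (fun w hw => ?_) v
      have := hfix (e ⟨w, hSf.mem_toFinset.mpr hw⟩)
      simpa using this) (by
      intro g hg hst
      ext v
      refine hc ⟨g, fun {u v} => hg u v⟩ (fun w => ?_) v
      have h1 : c (g w) = 0 ↔ c w = 0 := hst w
      show c (g w) = c w
      revert h1
      generalize c (g w) = a
      generalize c w = b
      revert a b
      decide)
  have hmem : T.card ∈ {k : ℕ | ∃ (c : V → Fin 2) (i : Fin 2),
      Distinguishing G c ∧ {v | c v = i}.ncard = k} := by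
    refine ⟨fun v => if v ∈ T then 0 else 1, 0, ?_, ?_⟩
    · intro φ hφ v
      have := hTs φ.toEquiv (fun u v => φ.map_rel_iff) (by
        intro x
        have h := hφ x
        show φ x ∈ T ↔ x ∈ T
        by_cases h1 : φ x ∈ T <;> by_cases h2 : x ∈ T <;> simp [h1, h2] at h ⊢)
      exact congrArg (fun g : Equiv.Perm V => g v) this
    · rw [← Set.ncard_coe_finset]
      congr 1
      ext v
      by_cases h : v ∈ T <;> simp [h]
  refine ⟨sInf _, ⟨Nat.sInf_mem ⟨_, hmem⟩, fun k hk => Nat.sInf_le hk⟩, ?_⟩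
  exact (Nat.sInf_le hmem).trans hT

end Pool.Agent.Results.MP_ff3c98_co.Bounded
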